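import Pool.Agent.W2helper1.LT.Stm

/-!
# Two integrals: `∫ (w / sinh w)^2 = π^2/3` and `∫ w / (sinh w cosh w) = π^2/4`
-/

set_option autoImplicit false

open MeasureTheory Set Real

namespace Pool.Agent.W2helper68.LT

open Pool.Agent.W2helper1.LT

/-- `∫_0^∞ t^2 e^{-rt} = 2/r^3`. -/
theorem int_sq_exp {r : ℝ} (hr : 0 < r) :
    ∫ t : ℝ in Ioi 0, t ^ 2 * Real.exp (-(r * t)) = 2 / r ^ 3 := by
  have h := Real.integral_rpow_mul_exp_neg_mul_Ioi (a := 3) (r := r) (by norm_num) hr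
  have e : ∫ t : ℝ in Ioi 0, t ^ 2 * Real.exp (-(r * t)) =
      ∫ t : ℝ in Ioi 0, t ^ ((3:ℝ) - 1) * Real.exp (-(r * t)) := by
    refine setIntegral_congr_fun measurableSet_Ioi ?_
    intro t _
    simp only
    congr 1
    rw [show (3:ℝ) - 1 = ((2:ℕ) : ℝ) by norm_num, Real.rpow_natCast]
  rw [e, h]
  have hG : Real.Gamma 3 = 2 := by
    have := Real.Gamma_nat_eq_factorial 2
    rw [show ((2:ℕ):ℝ) + 1 = 3 by norm_num] at this
    rw [this]
    norm_num [Nat.factorial]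
  rw [hG, show (3:ℝ) = ((3:ℕ) : ℝ) by norm_num, Real.rpow_natCast]
  field_simp

/-- `∫_0^∞ t e^{-rt} = 1/r^2`. -/
theorem int_id_exp {r : ℝ} (hr : 0 < r) :
    ∫ t : ℝ in Ioi 0, t * Real.exp (-(r * t)) = 1 / r ^ 2 := by
  have h := Real.integral_rpow_mul_exp_neg_mul_Ioi (a := 2) (r := r) (by norm_num) hr
  have e : ∫ t : ℝ in Ioi 0, t * Real.exp (-(r * t)) =
      ∫ t : ℝ in Ioi 0, t ^ ((2:ℝ) - 1) * Real.exp (-(r * t)) := by
    refine setIntegral_congr_fun measurableSet_Ioi ?_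
    intro t _
    simp only
    congr 1
    rw [show (2:ℝ) - 1 = ((1:ℕ) : ℝ) by norm_num, Real.rpow_natCast, pow_one]
  rw [e, h]
  have hG : Real.Gamma 2 = 1 := by
    have := Real.Gamma_nat_eq_factorial 1
    rw [show ((1:ℕ):ℝ) + 1 = 2 by norm_num] at this
    rw [this]
    norm_num [Nat.factorial]
  rw [hG, show (2:ℝ) = ((2:ℕ) : ℝ) by norm_num, Real.rpow_natCast]
  field_simp

theorem integrable_sq_exp {r : ℝ} (hr : 0 < r) :
    IntegrableOn (fun t : ℝ => t ^ 2 * Real.exp (-(r * t))) (Ioi 0) := by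
  have h := integrableOn_rpow_mul_exp_neg_mul_rpow (p := 1) (s := 2) (b := r) (by norm_num)
    one_pos hr
  refine h.congr_fun ?_ measurableSet_Ioi
  intro t _
  simp only [Real.rpow_one, neg_mul]
  rw [show (2:ℝ) = ((2:ℕ) : ℝ) by norm_num, Real.rpow_natCast]

theorem integrable_id_exp {r : ℝ} (hr : 0 < r) :
    IntegrableOn (fun t : ℝ => t * Real.exp (-(r * t))) (Ioi 0) := by
  have h := integrableOn_rpow_mul_exp_neg_mul_rpow (p := 1) (s := 1) (b := r) (by norm_num)
    one_pos hr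
  refine h.congr_fun ?_ measurableSet_Ioi
  intro t _
  simp only [Real.rpow_one, neg_mul]

theorem cosh_ge (x : ℝ) : 1 + x ^ 2 / 2 ≤ Real.cosh x := by
  have h1 : Real.cosh x = 1 + 2 * Real.sinh (x / 2) ^ 2 := by
    have := Real.cosh_two_mul (x / 2)
    rw [show 2 * (x / 2) = x by ring] at this
    rw [this, Real.cosh_sq]
    ring
  have h2 : (x / 2) ^ 2 ≤ Real.sinh (x / 2) ^ 2 := by
    rw [sq_le_sq]
    have h3 : |x / 2| ≤ Real.sinh |x / 2| := Real.self_le_sinh_iff.2 (abs_nonneg _)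
    have h4 : Real.sinh |x / 2| = |Real.sinh (x / 2)| := (Real.abs_sinh _).symm
    rw [← h4]
    exact h3
  rw [h1]
  nlinarith

theorem abs_sinh_ge (x : ℝ) : |x| * (1 + x ^ 2 / 8) ≤ |Real.sinh x| := by
  have h1 : Real.sinh x = 2 * Real.sinh (x / 2) * Real.cosh (x / 2) := by
    have := Real.sinh_two_mul (x / 2)
    rw [show 2 * (x / 2) = x by ring] at this
    exact this
  have h3 : |x / 2| ≤ |Real.sinh (x / 2)| := by
    rw [Real.abs_sinh]
    exact Real.self_le_sinh_iff.2 (abs_nonneg _)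
  have h4 := cosh_ge (x / 2)
  have h5 : |x / 2| = |x| / 2 := by rw [abs_div, abs_two]
  rw [h1, abs_mul, abs_mul, abs_two, abs_of_pos (Real.cosh_pos _)]
  rw [h5] at h3
  have h6 : |x| / 2 * (1 + (x / 2) ^ 2 / 2) ≤ |Real.sinh (x / 2)| * Real.cosh (x / 2) :=
    mul_le_mul h3 h4 (by positivity) (abs_nonneg _)
  nlinarith

theorem integrable_f2 : Integrable (fun w : ℝ => (w / Real.sinh w) ^ 2) := by
  have h := integrable_inv_one_add_sq.const_mul (4:ℝ)
  refine h.mono' ((measurable_id.div Real.measurable_sinh).pow_const 2).aestronglyMeasurable ?_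
  filter_upwards with w
  rw [Real.norm_of_nonneg (sq_nonneg _)]
  rcases eq_or_ne w 0 with h0 | h0
  · subst h0
    simp
  have hw : 0 < |w| := abs_pos.2 h0
  have h1 := abs_sinh_ge w
  have hs : 0 < |Real.sinh w| := lt_of_lt_of_le (by positivity) h1
  rw [div_pow, ← sq_abs w, ← sq_abs (Real.sinh w), ← div_eq_mul_inv, div_le_div_iff₀ (by positivity)
    (by positivity)]
  have h2 : (|w| * (1 + |w| ^ 2 / 8)) ^ 2 ≤ |Real.sinh w| ^ 2 := by
    rw [sq_abs]
    rw [sq_le_sq, abs_abs, abs_of_nonneg (by positivity)]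
    exact h1
  nlinarith [mul_pos hw hw, sq_nonneg (|w| ^ 2)]

theorem integrable_f0 : Integrable (fun w : ℝ => w / (Real.sinh w * Real.cosh w)) := by
  have h := integrable_inv_one_add_sq.const_mul (2:ℝ)
  refine h.mono' (measurable_id.div (Real.measurable_sinh.mul
    Real.measurable_cosh)).aestronglyMeasurable ?_
  filter_upwards with w
  rw [Real.norm_eq_abs]
  rcases eq_or_ne w 0 with h0 | h0
  · subst h0
    simp
  have hw : 0 < |w| := abs_pos.2 h0
  have h1 := abs_sinh_ge w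
  have hs : 0 < |Real.sinh w| := lt_of_lt_of_le (by positivity) h1
  rw [abs_div, abs_mul, abs_of_pos (Real.cosh_pos w), ← div_eq_mul_inv,
    div_le_div_iff₀ (mul_pos hs (Real.cosh_pos w)) (by positivity)]
  have h2 := cosh_ge w
  have h3 : |w| ≤ |Real.sinh w| := by
    have : |w| * 1 ≤ |w| * (1 + w ^ 2 / 8) := by gcongr; nlinarith [sq_nonneg w]
    linarith
  have h4 : |w| * (1 + w ^ 2 / 2) ≤ |Real.sinh w| * Real.cosh w :=
    mul_le_mul h3 h2 (by positivity) hs.le
  nlinarith [sq_nonneg w]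

theorem hasSum_f2 {w : ℝ} (hw : 0 < w) :
    HasSum (fun k : ℕ => 4 * (k:ℝ) * (w ^ 2 * Real.exp (-(2 * k * w)))) ((w / Real.sinh w) ^ 2) := by
  have hr : ‖Real.exp (-(2 * w))‖ < 1 := by
    rw [Real.norm_of_nonneg (Real.exp_pos _).le, Real.exp_lt_one_iff]
    linarith
  have h := (hasSum_coe_mul_geometric_of_norm_lt_one hr).mul_left (4 * w ^ 2)
  convert! h using 1
  · funext k
    rw [← Real.exp_nat_mul, show (k:ℝ) * (-(2 * w)) = -(2 * k * w) by ring]
    ring
  · rw [Real.sinh_eq]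
    have e1 : Real.exp (-w) = (Real.exp w)⁻¹ := Real.exp_neg w
    have e2 : Real.exp (-(2 * w)) = (Real.exp w)⁻¹ ^ 2 := by
      rw [← e1, ← Real.exp_nat_mul]
      congr 1
      push_cast
      ring
    rw [e1, e2]
    have hE : 1 < Real.exp w := Real.one_lt_exp_iff.2 hw
    have hE0 : 0 < Real.exp w := Real.exp_pos w
    have h1 : Real.exp w - (Real.exp w)⁻¹ ≠ 0 := by
      have : (Real.exp w)⁻¹ < 1 := inv_lt_one_of_one_lt₀ hE
      linarith
    have h2 : 1 - (Real.exp w)⁻¹ ^ 2 ≠ 0 := by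
      have h3 : (Real.exp w)⁻¹ < 1 := inv_lt_one_of_one_lt₀ hE
      have h4 : 0 < (Real.exp w)⁻¹ := inv_pos.2 hE0
      have : (Real.exp w)⁻¹ ^ 2 < 1 := by nlinarith
      linarith
    have h5 : (1 - (Real.exp w)⁻¹ ^ 2) = (Real.exp w)⁻¹ * (Real.exp w - (Real.exp w)⁻¹) := by
      field_simp
    rw [h5]
    field_simp
    ring

theorem hasSum_f0 {w : ℝ} (hw : 0 < w) :
    HasSum (fun k : ℕ => 4 * (w * Real.exp (-((4 * k + 2) * w))))
      (w / (Real.sinh w * Real.cosh w)) := by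
  have hr0 : 0 ≤ Real.exp (-(4 * w)) := (Real.exp_pos _).le
  have hr : Real.exp (-(4 * w)) < 1 := by
    rw [Real.exp_lt_one_iff]
    linarith
  have h := (hasSum_geometric_of_lt_one hr0 hr).mul_left (4 * w * Real.exp (-(2 * w)))
  convert! h using 1
  · funext k
    rw [← Real.exp_nat_mul, show -((4 * (k:ℝ) + 2) * w) = -(2 * w) + (k:ℝ) * (-(4 * w)) by ring,
      Real.exp_add]
    ring
  · have e0 : Real.sinh w * Real.cosh w = Real.sinh (2 * w) / 2 := by
      rw [Real.sinh_two_mul]; ring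
    rw [e0, Real.sinh_eq]
    have e1 : Real.exp (-(2 * w)) = (Real.exp (2 * w))⁻¹ := Real.exp_neg _
    have e2 : Real.exp (-(4 * w)) = (Real.exp (2 * w))⁻¹ ^ 2 := by
      rw [← e1, ← Real.exp_nat_mul]
      congr 1
      push_cast
      ring
    rw [e1, e2]
    have hE : 1 < Real.exp (2 * w) := Real.one_lt_exp_iff.2 (by linarith)
    have hE0 : 0 < Real.exp (2 * w) := Real.exp_pos _
    have h1 : Real.exp (2 * w) - (Real.exp (2 * w))⁻¹ ≠ 0 := by
      have : (Real.exp (2 * w))⁻¹ < 1 := inv_lt_one_of_one_lt₀ hE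
      linarith
    have h5 : (1 - (Real.exp (2 * w))⁻¹ ^ 2) =
        (Real.exp (2 * w))⁻¹ * (Real.exp (2 * w) - (Real.exp (2 * w))⁻¹) := by
      field_simp
    rw [h5]
    field_simp
    ring

theorem integral_f2_Ioi : ∫ w : ℝ in Ioi 0, (w / Real.sinh w) ^ 2 = π ^ 2 / 6 := by
  have hI : ∀ k : ℕ, ∫ w : ℝ in Ioi 0, 4 * (k:ℝ) * (w ^ 2 * Real.exp (-(2 * k * w))) =
      1 / (k:ℝ) ^ 2 := by
    intro k
    rcases Nat.eq_zero_or_pos k with h0 | h0
    · subst h0
      simp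
    have hk : (0:ℝ) < k := by exact_mod_cast h0
    rw [integral_const_mul, int_sq_exp (r := 2 * k) (by positivity)]
    field_simp
    norm_num
  have hInt : ∀ k : ℕ, Integrable (fun w : ℝ => 4 * (k:ℝ) * (w ^ 2 * Real.exp (-(2 * k * w))))
      (volume.restrict (Ioi 0)) := by
    intro k
    rcases Nat.eq_zero_or_pos k with h0 | h0
    · subst h0
      simp
    have hk : (0:ℝ) < k := by exact_mod_cast h0
    exact (integrable_sq_exp (r := 2 * k) (by positivity)).const_mul _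
  have hN : ∀ k : ℕ, ∫ w : ℝ in Ioi 0, ‖4 * (k:ℝ) * (w ^ 2 * Real.exp (-(2 * k * w)))‖ =
      1 / (k:ℝ) ^ 2 := by
    intro k
    rw [← hI k]
    congr 1
    funext w
    rw [Real.norm_of_nonneg (by positivity)]
  have h := hasSum_integral_of_summable_integral_norm (μ := volume.restrict (Ioi (0:ℝ)))
    (F := fun (k : ℕ) (w : ℝ) => 4 * (k:ℝ) * (w ^ 2 * Real.exp (-(2 * k * w)))) hInt
    (by simp_rw [hN]; exact hasSum_zeta_two.summable)
  simp_rw [hI] at h
  have h2 := h.unique hasSum_zeta_two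
  rw [← h2]
  refine setIntegral_congr_fun measurableSet_Ioi ?_
  intro w hw
  exact (hasSum_f2 hw).tsum_eq.symm

theorem hasSum_odd : HasSum (fun k : ℕ => 1 / (2 * (k:ℝ) + 1) ^ 2) (π ^ 2 / 8) := by
  have h := hasSum_zeta_two
  have he : HasSum (fun k : ℕ => 1 / ((2 * k : ℕ) : ℝ) ^ 2) (π ^ 2 / 24) := by
    have h1 := h.mul_left (1/4)
    convert! h1 using 1
    · funext k
      push_cast
      rcases Nat.eq_zero_or_pos k with h0 | h0
      · subst h0; simp
      field_simp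
      norm_num
    · ring
  have ho : Summable (fun k : ℕ => 1 / ((2 * k + 1 : ℕ) : ℝ) ^ 2) :=
    h.summable.comp_injective (i := fun k : ℕ => 2 * k + 1) (by intro a b hab; simpa using hab)
  have h3 := HasSum.even_add_odd (f := fun n : ℕ => 1 / (n : ℝ) ^ 2) he ho.hasSum
  have h4 := h3.unique h
  have h5 : (∑' k : ℕ, 1 / ((2 * k + 1 : ℕ) : ℝ) ^ 2) = π ^ 2 / 8 := by linarith
  have h6 := ho.hasSum
  rw [h5] at h6
  refine h6.congr_fun ?_
  intro k
  push_cast
  rfl

theorem integral_f0_Ioi : ∫ w : ℝ in Ioi 0, w / (Real.sinh w * Real.cosh w) = π ^ 2 / 8 := by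
  have hI : ∀ k : ℕ, ∫ w : ℝ in Ioi 0, 4 * (w * Real.exp (-((4 * k + 2) * w))) =
      1 / (2 * (k:ℝ) + 1) ^ 2 := by
    intro k
    rw [integral_const_mul, int_id_exp (r := 4 * k + 2) (by positivity)]
    field_simp
    ring
  have hInt : ∀ k : ℕ, Integrable (fun w : ℝ => 4 * (w * Real.exp (-((4 * k + 2) * w))))
      (volume.restrict (Ioi 0)) := by
    intro k
    exact (integrable_id_exp (r := 4 * k + 2) (by positivity)).const_mul _
  have hN : ∀ k : ℕ, ∫ w : ℝ in Ioi 0, ‖4 * (w * Real.exp (-((4 * k + 2) * w)))‖ =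
      1 / (2 * (k:ℝ) + 1) ^ 2 := by
    intro k
    rw [← hI k]
    refine setIntegral_congr_fun measurableSet_Ioi ?_
    intro w hw
    have : (0:ℝ) < w := hw
    simp only
    rw [Real.norm_of_nonneg (by positivity)]
  have h := hasSum_integral_of_summable_integral_norm (μ := volume.restrict (Ioi (0:ℝ)))
    (F := fun (k : ℕ) (w : ℝ) => 4 * (w * Real.exp (-((4 * k + 2) * w)))) hInt
    (by simp_rw [hN]; exact hasSum_odd.summable)
  simp_rw [hI] at h
  have h2 := h.unique hasSum_odd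
  rw [← h2]
  refine setIntegral_congr_fun measurableSet_Ioi ?_
  intro w hw
  exact (hasSum_f0 hw).tsum_eq.symm

/-- **Piece J2.** -/
theorem j2 : J2 := by
  refine ⟨integrable_f2, ?_⟩
  have h := integral_comp_abs (f := fun w : ℝ => (w / Real.sinh w) ^ 2)
  rw [integral_f2_Ioi] at h
  have e : ∀ w : ℝ, (|w| / Real.sinh |w|) ^ 2 = (w / Real.sinh w) ^ 2 := by
    intro w
    rcases abs_cases w with h1 | h1
    · rw [h1.1]
    · rw [h1.1, Real.sinh_neg, neg_div_neg_eq]
  simp_rw [e] at h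
  rw [h]
  ring

/-- **Piece J0.** -/
theorem j0 : J0 := by
  refine ⟨integrable_f0, ?_⟩
  have h := integral_comp_abs (f := fun w : ℝ => w / (Real.sinh w * Real.cosh w))
  rw [integral_f0_Ioi] at h
  have e : ∀ w : ℝ, |w| / (Real.sinh |w| * Real.cosh |w|) = w / (Real.sinh w * Real.cosh w) := by
    intro w
    rcases abs_cases w with h1 | h1
    · rw [h1.1]
    · rw [h1.1, Real.sinh_neg, Real.cosh_neg, neg_mul, neg_div_neg_eq]
  simp_rw [e] at h
  rw [h]
  ring

end Pool.Agent.W2helper68.LT
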